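import Pool.Agent.MP_93b8e4_co.H43.Bridge

/-!
For every smooth Bruhat interval `[u, w]`, `u < w`, in the symmetric group `S_{n+1}` there is a
simple reflection `s` with `s u > u` such that `s u ≰ w` or `s w < w`.
-/

namespace Pool.Agent.Results.MP_93b8e4_co.SmoothInterval

open Pool.Agent.MP_93b8e4_co.H43

theorem result (n : ℕ) (u w : Equiv.Perm (Fin (n + 1)))
    (hlt : BruhatLT u w) (hs : IsSmooth u w) :
    ∃ i : Fin n, BruhatLT u (Equiv.swap i.castSucc i.succ * u) ∧
      (¬ BruhatLE (Equiv.swap i.castSucc i.succ * u) w ∨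
        BruhatLT (Equiv.swap i.castSucc i.succ * w) w) :=
  main u w hlt hs

end Pool.Agent.Results.MP_93b8e4_co.SmoothInterval
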